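import Pool.Agent.Run7.h842.Met.CT

/-!
# Piece CM of the project Met (helper146): the law of the contact time

Under the intensity measure the contact time with a given meteor has a bounded density.
-/

set_option autoImplicit false

open MeasureTheory Filter Topology ENNReal

namespace Run7.h842.Met

open Run7.h146.Met

/-- comparison of a measure with the volume on intervals -/
lemma le_vol (μ : Measure ℝ) (K : NNReal)
    (h : ∀ a b : ℝ, a ≤ b → μ (Set.Ioc a b) ≤ ENNReal.ofReal (K * b - K * a)) :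
    μ ≤ K • (volume : Measure ℝ) := by
  rw [Real.volume_eq_stieltjes_id, ← StieltjesFunction.measure_smul, StieltjesFunction.measure]
  rw [← Measure.toOuterMeasure_le]
  show μ.toOuterMeasure ≤ (K • StieltjesFunction.id).outer
  unfold StieltjesFunction.outer
  rw [OuterMeasure.le_ofFunction]
  intro s
  rw [StieltjesFunction.length_eq]
  refine le_iInf fun a => le_iInf fun b => le_iInf fun hs => ?_
  have hbot : (botSet : Set ℝ) = ∅ := by
    ext x
    simp [botSet]
  rw [hbot, Set.sdiff_empty] at hs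
  show μ s ≤ ENNReal.ofReal (K * b - K * a)
  refine (measure_mono hs).trans ?_
  rcases le_or_gt a b with hab | hab
  · exact h a b hab
  · rw [Set.Ioc_eq_empty (by simp [hab.le])]
    simp

lemma pow_diff (a h : ℝ) (n : ℕ) (ha : 0 ≤ a) (h0 : 0 ≤ h) (h1 : h ≤ 1) :
    (a + h) ^ n - a ^ n ≤ n * (a + 1) ^ n * h := by
  induction n with
  | zero => simp
  | succ n ih =>
    have e : (a + h) ^ (n + 1) - a ^ (n + 1) = (a + h) * ((a + h) ^ n - a ^ n) + h * a ^ n := by
      ring
    rw [e]
    have h3 : (0 : ℝ) ≤ (a + h) ^ n - a ^ n := by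
      have := pow_le_pow_left₀ ha (show a ≤ a + h by linarith) n
      linarith
    have h4 : (a + h) * ((a + h) ^ n - a ^ n) ≤ (a + 1) * (n * (a + 1) ^ n * h) := by
      apply mul_le_mul (by linarith) ih h3 (by linarith)
    have h5 : a ^ n ≤ (a + 1) ^ (n + 1) := by
      calc a ^ n ≤ (a + 1) ^ n := pow_le_pow_left₀ ha (by linarith) n
        _ ≤ (a + 1) ^ (n + 1) := pow_le_pow_right₀ (by linarith) (by omega)
    have h6 : h * a ^ n ≤ h * (a + 1) ^ (n + 1) := mul_le_mul_of_nonneg_left h5 h0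
    push_cast
    calc (a + h) * ((a + h) ^ n - a ^ n) + h * a ^ n
        ≤ (a + 1) * (n * (a + 1) ^ n * h) + h * (a + 1) ^ (n + 1) := add_le_add h4 h6
      _ = ((n : ℝ) + 1) * (a + 1) ^ (n + 1) * h := by ring

/-- the constant -/
noncomputable def Kc (d : ℕ) (ε : ℝ) : ℝ :=
  d * (2 * ε + 1) ^ d * (volume (Metric.ball (0 : V d) 1)).toReal

lemma Kc_nonneg (d : ℕ) (ε : ℝ) (hε : 0 < ε) : 0 ≤ Kc d ε := by
  unfold Kc; positivity

/-- volume of a shell -/
lemma shell (d : ℕ) (c : V d) (ε h : ℝ) (hε : 0 < ε) (h0 : 0 ≤ h) (h1 : h ≤ 1) :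
    volume (Metric.closedBall c (2 * ε + h) \ Metric.closedBall c (2 * ε)) ≤
      ENNReal.ofReal (Kc d ε * h) := by
  have hW : volume (Metric.ball (0 : V d) 1) =
      ENNReal.ofReal (volume (Metric.ball (0 : V d) 1)).toReal :=
    (ENNReal.ofReal_toReal (Metric.isBounded_ball.measure_lt_top.ne)).symm
  rw [measure_sdiff (Metric.closedBall_subset_closedBall (by linarith))
    Metric.isClosed_closedBall.measurableSet.nullMeasurableSet
    (Metric.isBounded_closedBall.measure_lt_top.ne),
    Measure.addHaar_closedBall _ _ (by linarith), Measure.addHaar_closedBall _ _ (by linarith),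
    finrank_euclideanSpace_fin, hW, ← ENNReal.ofReal_mul (by positivity),
    ← ENNReal.ofReal_mul (by positivity), ← ENNReal.ofReal_sub _ (by positivity)]
  apply ENNReal.ofReal_le_ofReal
  have h2 := pow_diff (2 * ε) h d (by linarith) h0 h1
  unfold Kc
  have h3 : 0 ≤ (volume (Metric.ball (0 : V d) 1)).toReal := ENNReal.toReal_nonneg
  nlinarith [mul_le_mul_of_nonneg_right h2 h3]

variable {d : ℕ}

lemma ct_meas_right (ε : ℝ) (z : X d) : Measurable (fun y : X d => ct ε z y) := by
  have h1 : Measurable (fun y : X d => (z, y)) := measurable_prodMk_left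
  have h2 : (fun y : X d => ct ε z y) =
      (fun p : X d × X d => ct ε p.1 p.2) ∘ (fun y : X d => (z, y)) := rfl
  rw [h2]
  exact (ct_meas ε).comp h1

/-- the positions with a contact time in `(a, b]` -/
def Bs (ε : ℝ) (z : X d) (w : V d) (a b : ℝ) : Set (V d) :=
  {x | ENNReal.ofReal a < ct ε z (x, w) ∧ ct ε z (x, w) ≤ ENNReal.ofReal b}

lemma Bs_sub (ε : ℝ) (z : X d) (w : V d) (a b : ℝ) (ha : 0 ≤ a) (hab : a ≤ b) :
    Bs ε z w a b ⊆ Metric.closedBall (z.1 + a • (z.2 - w)) (2 * ε + (b - a) * ‖z.2 - w‖) \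
      Metric.closedBall (z.1 + a • (z.2 - w)) (2 * ε) := by
  rintro x ⟨h1, h2⟩
  have hp : ∀ t : ℝ, pos z t - pos ((x, w) : X d) t = (z.1 + t • (z.2 - w)) - x := by
    intro t
    simp only [pos, smul_sub]
    abel
  constructor
  · obtain ⟨t, ht0, htb, ht⟩ := (ct_le_iff ε z (x, w) b (ha.trans hab)).1 h2
    have hat : a ≤ t := by
      by_contra hcon
      push Not at hcon
      have h3 := (ct_le ε z (x, w) t ht0 ht).trans (ENNReal.ofReal_le_ofReal hcon.le)
      exact absurd h3 (not_le.2 h1)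
    rw [hp] at ht
    rw [Metric.mem_closedBall, dist_comm, dist_eq_norm]
    have e : z.1 + a • (z.2 - w) - x = ((z.1 + t • (z.2 - w)) - x) - (t - a) • (z.2 - w) := by
      rw [sub_smul]; abel
    rw [e]
    calc ‖((z.1 + t • (z.2 - w)) - x) - (t - a) • (z.2 - w)‖
        ≤ ‖(z.1 + t • (z.2 - w)) - x‖ + ‖(t - a) • (z.2 - w)‖ := norm_sub_le _ _
      _ ≤ 2 * ε + (b - a) * ‖z.2 - w‖ := by
          rw [norm_smul, Real.norm_eq_abs, abs_of_nonneg (by linarith)]
          gcongr
  · intro hcon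
    rw [Metric.mem_closedBall, dist_comm, dist_eq_norm] at hcon
    have h3 := ct_le ε z (x, w) a ha (by rw [hp]; exact hcon)
    exact absurd h3 (not_le.2 h1)

lemma Bs_vol (ε : ℝ) (hε : 0 < ε) (z : X d) (w : V d) (n : ℕ) :
    ∀ a b : ℝ, 0 ≤ a → a ≤ b → (b - a) * ‖z.2 - w‖ ≤ n + 1 →
    volume (Bs ε z w a b) ≤ ENNReal.ofReal (Kc d ε * ((b - a) * ‖z.2 - w‖)) := by
  induction n with
  | zero =>
    intro a b ha hab h
    have h0 : 0 ≤ (b - a) * ‖z.2 - w‖ := mul_nonneg (by linarith) (norm_nonneg _)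
    exact (measure_mono (Bs_sub ε z w a b ha hab)).trans
      (shell d _ ε _ hε h0 (by simpa using h))
  | succ n ih =>
    intro a b ha hab h
    have hK := Kc_nonneg d ε hε
    by_cases h1 : (b - a) * ‖z.2 - w‖ ≤ 1
    · exact ih a b ha hab (by have : (0 : ℝ) ≤ n := Nat.cast_nonneg n; linarith)
    push Not at h1
    have hu : 0 < ‖z.2 - w‖ := by
      rcases (norm_nonneg (z.2 - w)).eq_or_lt with h2 | h2
      · rw [← h2] at h1; simp at h1; linarith
      · exact h2
    set c := a + 1 / ‖z.2 - w‖ with hc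
    have hac : a ≤ c := by rw [hc]; have : 0 < 1 / ‖z.2 - w‖ := by positivity
                           linarith
    have hcb : c ≤ b := by
      have : 1 / ‖z.2 - w‖ ≤ b - a := by
        rw [div_le_iff₀ hu]; exact h1.le
      rw [hc]; linarith
    have e1 : (c - a) * ‖z.2 - w‖ = 1 := by
      rw [hc]; field_simp; ring
    have e2 : (b - c) * ‖z.2 - w‖ = (b - a) * ‖z.2 - w‖ - 1 := by
      have : (b - c) * ‖z.2 - w‖ = (b - a) * ‖z.2 - w‖ - (c - a) * ‖z.2 - w‖ := by ring
      rw [this, e1]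
    have hsub : Bs ε z w a b ⊆ Bs ε z w a c ∪ Bs ε z w c b := by
      rintro x ⟨hx1, hx2⟩
      rcases le_or_gt (ct ε z (x, w)) (ENNReal.ofReal c) with h3 | h3
      · exact Or.inl ⟨hx1, h3⟩
      · exact Or.inr ⟨h3, hx2⟩
    calc volume (Bs ε z w a b) ≤ volume (Bs ε z w a c) + volume (Bs ε z w c b) :=
          (measure_mono hsub).trans (measure_union_le _ _)
      _ ≤ ENNReal.ofReal (Kc d ε * ((c - a) * ‖z.2 - w‖)) +
          ENNReal.ofReal (Kc d ε * ((b - c) * ‖z.2 - w‖)) := by
          apply add_le_add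
          · apply ih a c ha hac
            rw [e1]
            have : (0 : ℝ) ≤ n := Nat.cast_nonneg n
            linarith
          · apply ih c b (ha.trans hac) hcb
            rw [e2]
            push_cast at h
            linarith
      _ = ENNReal.ofReal (Kc d ε * ((b - a) * ‖z.2 - w‖)) := by
          rw [← ENNReal.ofReal_add (by rw [e1]; linarith)
            (mul_nonneg hK (mul_nonneg (by linarith) hu.le))]
          congr 1; ring

lemma Bs_vol' (ε : ℝ) (hε : 0 < ε) (z : X d) (w : V d) (a b : ℝ) (ha : 0 ≤ a) (hab : a ≤ b) :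
    volume (Bs ε z w a b) ≤ ENNReal.ofReal (Kc d ε * ((b - a) * ‖z.2 - w‖)) := by
  obtain ⟨n, hn⟩ := exists_nat_ge ((b - a) * ‖z.2 - w‖)
  exact Bs_vol ε hε z w n a b ha hab (by linarith)

/-- the meteors with contact time in `(a, b]` and direction in `S` -/
lemma prod_bound (ε : ℝ) (hε : 0 < ε) (z : X d) [IsProbabilityMeasure (sig d)]
    (S : Set (V d)) (hS : MeasurableSet S)
    (δ : ℝ) (_hδ : 0 ≤ δ) (hSδ : ∀ᵐ w ∂(sig d), w ∈ S → ‖z.2 - w‖ ≤ δ)
    (a b : ℝ) (ha : 0 ≤ a) (hab : a ≤ b) :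
    ((volume : Measure (V d)).prod (sig d)) {y | y.2 ∈ S ∧ ENNReal.ofReal a < ct ε z y ∧
      ct ε z y ≤ ENNReal.ofReal b} ≤ ENNReal.ofReal (Kc d ε * ((b - a) * δ)) * sig d S := by
  have hct : Measurable fun y : X d => ct ε z y := ct_meas_right ε z
  set A : Set (X d) := {y | y.2 ∈ S ∧ ENNReal.ofReal a < ct ε z y ∧
      ct ε z y ≤ ENNReal.ofReal b} with hA
  have hm : MeasurableSet A :=
    (measurable_snd hS).inter ((measurableSet_lt measurable_const hct).inter
      (measurableSet_le hct measurable_const))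
  have hK := Kc_nonneg d ε hε
  have hpt : ∀ w : V d, (w ∈ S → ‖z.2 - w‖ ≤ δ) →
      volume ((fun x : V d => (x, w)) ⁻¹' A) ≤
        S.indicator (fun _ => ENNReal.ofReal (Kc d ε * ((b - a) * δ))) w := by
    intro w hw
    by_cases hwS : w ∈ S
    · rw [Set.indicator_of_mem hwS]
      have e : (fun x : V d => (x, w)) ⁻¹' A ⊆ Bs ε z w a b := by
        intro x hx
        exact ⟨hx.2.1, hx.2.2⟩
      refine (measure_mono e).trans ((Bs_vol' ε hε z w a b ha hab).trans ?_)
      apply ENNReal.ofReal_le_ofReal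
      apply mul_le_mul_of_nonneg_left _ hK
      exact mul_le_mul_of_nonneg_left (hw hwS) (by linarith)
    · rw [Set.indicator_of_notMem hwS]
      have e : (fun x : V d => (x, w)) ⁻¹' A = ∅ := by
        ext x
        simp only [Set.mem_preimage, Set.mem_empty_iff_false, iff_false]
        intro hx
        exact hwS hx.1
      rw [e, measure_empty]
  rw [Measure.prod_apply_symm hm]
  calc ∫⁻ w, volume ((fun x : V d => (x, w)) ⁻¹' A) ∂(sig d)
      ≤ ∫⁻ w, S.indicator (fun _ => ENNReal.ofReal (Kc d ε * ((b - a) * δ))) w ∂(sig d) :=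
        lintegral_mono_ae (hSδ.mono hpt)
    _ = ENNReal.ofReal (Kc d ε * ((b - a) * δ)) * sig d S := by
        rw [lintegral_indicator hS, setLIntegral_const]

/-- **CM** -/
theorem t_CM : S_CT → S_MB → S_CAP → S_CM := by
  intro _ hMB hCAP d ε hd hε
  obtain ⟨hprob, hnorm, -, -⟩ := hMB d hd
  obtain ⟨C', hC'1, hC'⟩ : ∃ C' : ℝ, 1 ≤ C' ∧ (2 ≤ d → ∀ (v : V d) (δ : ℝ), ‖v‖ = 1 → 0 < δ →
      sig d {w | ‖w - v‖ ≤ δ} ≤ ENNReal.ofReal (C' * δ)) := by
    by_cases h : 2 ≤ d
    · obtain ⟨C', h1, h2⟩ := hCAP d h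
      exact ⟨C', h1, fun _ => h2⟩
    · exact ⟨1, le_rfl, fun h' => absurd h' h⟩
  have hK := Kc_nonneg d ε hε
  have hKC : 0 ≤ Kc d ε * C' := mul_nonneg hK (by linarith)
  have hae : ∀ᵐ w ∂(sig d), ‖w‖ = 1 := by
    rw [ae_iff]; exact hnorm
  refine ⟨1 + 2 * Kc d ε + Kc d ε * C', by linarith, ?_, ?_⟩
  · intro z hz φ hφ
    have hct : Measurable fun y : X d => ct ε z y := ct_meas_right ε z
    set M : Measure (X d) := (volume : Measure (V d)).prod (sig d) with hM
    set E : Set (X d) := {y | 0 < ct ε z y ∧ ct ε z y ≠ ⊤} with hE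
    have hEm : MeasurableSet E :=
      (measurableSet_lt measurable_const hct).inter (hct (measurableSet_singleton ⊤)).compl
    have hτ : Measurable fun y : X d => (ct ε z y).toReal := hct.ennreal_toReal
    set μ : Measure ℝ := (M.restrict E).map fun y => (ct ε z y).toReal with hμ
    have hIoc : ∀ a b : ℝ, a ≤ b →
        μ (Set.Ioc a b) ≤ ENNReal.ofReal (2 * Kc d ε * b - 2 * Kc d ε * a) := by
      intro a b hab
      rw [hμ, Measure.map_apply hτ measurableSet_Ioc,
        Measure.restrict_apply (hτ measurableSet_Ioc)]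
      rcases le_or_gt b 0 with hb | hb
      · have : (fun y : X d => (ct ε z y).toReal) ⁻¹' Set.Ioc a b ∩ E = ∅ := by
          ext y
          simp only [Set.mem_inter_iff, Set.mem_preimage, Set.mem_Ioc, Set.mem_empty_iff_false,
            iff_false, not_and]
          rintro ⟨_, h2⟩ h3
          have := ENNReal.toReal_pos h3.1.ne' h3.2
          linarith
        rw [this]; simp
      · have hsub : (fun y : X d => (ct ε z y).toReal) ⁻¹' Set.Ioc a b ∩ E ⊆
            {y | y.2 ∈ (Set.univ : Set (V d)) ∧ ENNReal.ofReal (max a 0) < ct ε z y ∧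
              ct ε z y ≤ ENNReal.ofReal b} := by
          rintro y ⟨⟨h1, h2⟩, h3, h4⟩
          have h5 := ENNReal.toReal_pos h3.ne' h4
          have h6 : ct ε z y = ENNReal.ofReal (ct ε z y).toReal := (ENNReal.ofReal_toReal h4).symm
          refine ⟨Set.mem_univ _, ?_, ?_⟩
          · rw [h6]
            exact (ENNReal.ofReal_lt_ofReal_iff h5).2 (max_lt h1 h5)
          · rw [h6]
            exact ENNReal.ofReal_le_ofReal h2
        have h7 := prod_bound ε hε z Set.univ MeasurableSet.univ 2 (by norm_num)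
          (by filter_upwards [hae] with w hw _
              calc ‖z.2 - w‖ ≤ ‖z.2‖ + ‖w‖ := norm_sub_le _ _
                _ = 2 := by rw [hz, hw]; norm_num) (max a 0) b (le_max_right _ _)
          (max_le hab hb.le)
        refine (measure_mono hsub).trans (h7.trans ?_)
        rw [measure_univ, mul_one]
        apply ENNReal.ofReal_le_ofReal
        have : a ≤ max a 0 := le_max_left _ _
        nlinarith
    have hle : μ ≤ (2 * Kc d ε).toNNReal • (volume : Measure ℝ) := by
      apply le_vol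
      intro a b hab
      have : ((2 * Kc d ε).toNNReal : ℝ) = 2 * Kc d ε := Real.coe_toNNReal _ (by linarith)
      rw [this]
      exact hIoc a b hab
    have hμ0 : μ = μ.restrict (Set.Ioi 0) := by
      rw [hμ, Measure.restrict_map hτ measurableSet_Ioi, Measure.restrict_restrict (hτ measurableSet_Ioi)]
      congr 2
      ext y
      simp only [Set.mem_inter_iff, Set.mem_preimage, Set.mem_Ioi]
      constructor
      · intro h
        exact ⟨ENNReal.toReal_pos h.1.ne' h.2, h⟩
      · exact fun h => h.2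
    have hint : ∫⁻ y, (if 0 < ct ε z y ∧ ct ε z y ≠ ⊤ then φ (ct ε z y) else 0) ∂M =
        ∫⁻ s, φ (ENNReal.ofReal s) ∂μ := by
      have hφ' : Measurable fun s : ℝ => φ (ENNReal.ofReal s) :=
        hφ.comp ENNReal.measurable_ofReal
      rw [hμ, lintegral_map hφ' hτ, ← lintegral_indicator hEm]
      apply lintegral_congr
      intro y
      by_cases hy : y ∈ E
      · have hy' : 0 < ct ε z y ∧ ct ε z y ≠ ⊤ := hy
        rw [Set.indicator_of_mem hy, if_pos hy', ENNReal.ofReal_toReal hy'.2]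
      · have hy' : ¬ (0 < ct ε z y ∧ ct ε z y ≠ ⊤) := hy
        rw [Set.indicator_of_notMem hy, if_neg hy']
    rw [hint, hμ0]
    calc ∫⁻ s, φ (ENNReal.ofReal s) ∂(μ.restrict (Set.Ioi 0))
        ≤ ∫⁻ s, φ (ENNReal.ofReal s)
            ∂(((2 * Kc d ε).toNNReal • (volume : Measure ℝ)).restrict (Set.Ioi 0)) :=
          lintegral_mono' (Measure.restrict_mono le_rfl hle) le_rfl
      _ = ENNReal.ofReal (2 * Kc d ε) * ∫⁻ s in Set.Ioi (0 : ℝ), φ (ENNReal.ofReal s) := by
          rw [Measure.restrict_smul, lintegral_smul_measure]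
          rfl
      _ ≤ _ := by
          gcongr
          linarith
  · intro hd2 z hz δ a b hδ _ ha hab
    have hS : MeasurableSet {w : V d | ‖w - z.2‖ ≤ δ} :=
      measurableSet_le (by fun_prop) measurable_const
    have h1 := prod_bound ε hε z {w : V d | ‖w - z.2‖ ≤ δ} hS δ hδ.le
      (Filter.Eventually.of_forall fun w hw => by rw [norm_sub_rev]; exact hw) a b ha hab
    have h2 := hC' hd2 z.2 δ hz hδ
    calc ((volume : Measure (V d)).prod (sig d)) {y | ‖y.2 - z.2‖ ≤ δ ∧
          ENNReal.ofReal a < ct ε z y ∧ ct ε z y ≤ ENNReal.ofReal b}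
        ≤ ENNReal.ofReal (Kc d ε * ((b - a) * δ)) * sig d {w : V d | ‖w - z.2‖ ≤ δ} := h1
      _ ≤ ENNReal.ofReal (Kc d ε * ((b - a) * δ)) * ENNReal.ofReal (C' * δ) := by gcongr
      _ = ENNReal.ofReal (Kc d ε * C' * (b - a) * δ ^ 2) := by
          rw [← ENNReal.ofReal_mul
            (mul_nonneg hK (mul_nonneg (by linarith) hδ.le))]
          congr 1; ring
      _ ≤ _ := by
          apply ENNReal.ofReal_le_ofReal
          apply mul_le_mul_of_nonneg_right _ (by positivity)
          apply mul_le_mul_of_nonneg_right _ (by linarith)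
          linarith

end Run7.h842.Met
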