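import Pool.Agent.Run7.h146.Met.I1

/-!
# Piece CT of the project Met (helper146): facts about the contact time
-/

set_option autoImplicit false

open MeasureTheory Filter Topology ENNReal

namespace Run7.h842.Met

open Run7.h146.Met

variable {d : ℕ}

/-- the times of contact -/
def TT (ε : ℝ) (z y : X d) : Set ℝ := {t | 0 ≤ t ∧ ‖pos z t - pos y t‖ ≤ 2 * ε}

lemma cont_pos (z : X d) : Continuous (pos z) := by
  unfold pos; fun_prop

lemma TT_closed (ε : ℝ) (z y : X d) : IsClosed (TT ε z y) := by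
  have h1 : IsClosed {t : ℝ | 0 ≤ t} := isClosed_Ici
  have h2 : IsClosed {t : ℝ | ‖pos z t - pos y t‖ ≤ 2 * ε} :=
    isClosed_le (((cont_pos z).sub (cont_pos y)).norm) continuous_const
  exact h1.inter h2

lemma ct_le (ε : ℝ) (z y : X d) (t : ℝ) (h0 : 0 ≤ t) (h : ‖pos z t - pos y t‖ ≤ 2 * ε) :
    ct ε z y ≤ ENNReal.ofReal t := by
  unfold ct
  exact iInf₂_le t ⟨h0, h⟩

lemma TT_nonempty (ε : ℝ) (z y : X d) (h : ct ε z y ≠ ⊤) : (TT ε z y).Nonempty := by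
  by_contra hne
  apply h
  unfold ct
  rw [iInf_eq_top]
  intro t
  rw [iInf_eq_top]
  intro ht
  exact absurd ⟨t, ht⟩ hne

lemma ct_attained (ε : ℝ) (z y : X d) (h : ct ε z y ≠ ⊤) :
    ∃ t : ℝ, 0 ≤ t ∧ ct ε z y = ENNReal.ofReal t ∧
    ‖pos z t - pos y t‖ ≤ 2 * ε ∧ ∀ s, 0 ≤ s → s < t → 2 * ε < ‖pos z s - pos y s‖ := by
  have hne := TT_nonempty ε z y h
  have hbdd : BddBelow (TT ε z y) := ⟨0, fun t ht => ht.1⟩
  have hmem : sInf (TT ε z y) ∈ TT ε z y := (TT_closed ε z y).csInf_mem hne hbdd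
  refine ⟨sInf (TT ε z y), hmem.1, ?_, hmem.2, ?_⟩
  · apply le_antisymm
    · exact ct_le ε z y _ hmem.1 hmem.2
    · unfold ct
      refine le_iInf₂ fun t ht => ?_
      exact ENNReal.ofReal_le_ofReal (csInf_le hbdd ht)
  · intro s hs hst
    by_contra hcon
    push Not at hcon
    exact absurd (csInf_le hbdd (show s ∈ TT ε z y from ⟨hs, hcon⟩)) (not_le.2 hst)

lemma ct_symm (ε : ℝ) (z y : X d) : ct ε z y = ct ε y z := by
  unfold ct
  congr 1; funext t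
  rw [norm_sub_rev]

lemma ct_le_iff (ε : ℝ) (z y : X d) (c : ℝ) (hc : 0 ≤ c) :
    ct ε z y ≤ ENNReal.ofReal c ↔ ∃ t, 0 ≤ t ∧ t ≤ c ∧ ‖pos z t - pos y t‖ ≤ 2 * ε := by
  constructor
  · intro h
    obtain ⟨t, ht0, hte, ht2, _⟩ := ct_attained ε z y (ne_top_of_le_ne_top ENNReal.ofReal_ne_top h)
    refine ⟨t, ht0, ?_, ht2⟩
    rw [hte] at h
    exact (ENNReal.ofReal_le_ofReal_iff hc).1 h
  · rintro ⟨t, ht0, htc, ht2⟩
    exact (ct_le ε z y t ht0 ht2).trans (ENNReal.ofReal_le_ofReal htc)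

lemma ct_meas (ε : ℝ) : Measurable (fun p : X d × X d => ct ε p.1 p.2) := by
  apply measurable_of_Iic
  intro b
  by_cases hb : b = ⊤
  · subst hb; simp
  · obtain ⟨c, hc0, rfl⟩ : ∃ c : ℝ, 0 ≤ c ∧ b = ENNReal.ofReal c :=
      ⟨b.toReal, ENNReal.toReal_nonneg, (ENNReal.ofReal_toReal hb).symm⟩
    have h1 : (fun p : X d × X d => ct ε p.1 p.2) ⁻¹' Set.Iic (ENNReal.ofReal c) =
        Prod.snd '' {q : Set.Icc (0 : ℝ) c × (X d × X d) |
          ‖pos q.2.1 q.1 - pos q.2.2 q.1‖ ≤ 2 * ε} := by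
      ext p
      simp only [Set.mem_preimage, Set.mem_Iic, Set.mem_image, Set.mem_setOf_eq]
      rw [ct_le_iff ε p.1 p.2 c hc0]
      constructor
      · rintro ⟨t, h0, h1, h2⟩
        exact ⟨(⟨t, h0, h1⟩, p), h2, rfl⟩
      · rintro ⟨⟨⟨t, h0, h1⟩, q⟩, h2, rfl⟩
        exact ⟨t, h0, h1, h2⟩
    rw [h1]
    apply IsClosed.measurableSet
    apply isClosedMap_snd_of_compactSpace
    apply isClosed_le
    · unfold pos; fun_prop
    · exact continuous_const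

lemma ct_zero (ε : ℝ) (z y : X d) : ct ε z y = 0 ↔ ‖z.1 - y.1‖ ≤ 2 * ε := by
  have h := ct_le_iff ε z y 0 le_rfl
  rw [ENNReal.ofReal_zero, nonpos_iff_eq_zero] at h
  rw [h]
  constructor
  · rintro ⟨t, h0, h1, h2⟩
    have : t = 0 := le_antisymm h1 h0
    subst this
    simpa [pos] using h2
  · intro h
    exact ⟨0, le_rfl, le_rfl, by simpa [pos] using h⟩

lemma ct_dist (ε : ℝ) (z y : X d) (t : ℝ) (ht : 0 ≤ t) (hz : ‖z.2‖ = 1) (hy : ‖y.2‖ = 1)
    (h : ct ε z y ≤ ENNReal.ofReal t) : ‖z.1 - y.1‖ ≤ 2 * t + 2 * ε := by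
  obtain ⟨s, h0, h1, h2⟩ := (ct_le_iff ε z y t ht).1 h
  have e : z.1 - y.1 = (pos z s - pos y s) - s • z.2 + s • y.2 := by
    unfold pos; abel
  rw [e]
  calc ‖(pos z s - pos y s) - s • z.2 + s • y.2‖
      ≤ ‖(pos z s - pos y s) - s • z.2‖ + ‖s • y.2‖ := norm_add_le _ _
    _ ≤ ‖pos z s - pos y s‖ + ‖s • z.2‖ + ‖s • y.2‖ := by gcongr; exact norm_sub_le _ _
    _ ≤ 2 * ε + s * 1 + s * 1 := by
        rw [norm_smul, norm_smul, hz, hy, Real.norm_eq_abs, abs_of_nonneg h0]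
        gcongr
    _ ≤ 2 * t + 2 * ε := by linarith

lemma ct_isom (ε : ℝ) (O : V d ≃ₗᵢ[ℝ] V d) (a : V d) (z y : X d) :
    ct ε ((a + O z.1, O z.2) : X d) (a + O y.1, O y.2) = ct ε z y := by
  unfold ct
  congr 1; funext t
  have h : ‖pos ((a + O z.1, O z.2) : X d) t - pos ((a + O y.1, O y.2) : X d) t‖ =
      ‖pos z t - pos y t‖ := by
    have e : pos ((a + O z.1, O z.2) : X d) t - pos ((a + O y.1, O y.2) : X d) t =
        O (pos z t - pos y t) := by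
      simp only [pos, map_sub, map_add, map_smul]
      abel
    rw [e, LinearIsometryEquiv.norm_map]
  rw [h]

/-- **CT** -/
theorem t_CT : S_CT := by
  intro d ε _
  exact ⟨ct_meas ε, ct_symm ε, fun z y h => ct_attained ε z y h, fun z y t => ct_le ε z y t,
    ct_zero ε, fun z y t => ct_dist ε z y t, ct_isom ε⟩

end Run7.h842.Met
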