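import Pool.Agent.Run7.h146.Met.I1

/-!
# Piece U1 of the project Met (helper146): at most one meteor covers the origin
-/

set_option autoImplicit false

open MeasureTheory Filter Topology ENNReal

namespace Run7.h842.Met

open Run7.h146.Met

/-- **U1** -/
theorem t_U1 : S_CT → S_DYN → S_U1 := by
  intro hCT hDYN d ε hε S
  obtain ⟨_, _, _, hle, _, _, _⟩ := hCT d ε hε
  obtain ⟨hD, _, _⟩ := hDYN d ε S
  have key : ∀ z ∈ S, ∀ y ∈ S, z ≠ y → ∀ t, 0 ≤ t → ENNReal.ofReal t < dt ε S z →
      ENNReal.ofReal t < dt ε S y → 2 * ε < ‖pos z t - pos y t‖ := by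
    intro z hz y hy hne t ht h1 h2
    by_contra hcon
    push Not at hcon
    have h3 := hle z y t ht hcon
    have h4 : dt ε S z ≤ ct ε z y := by
      rw [hD z hz]
      exact iInf₂_le y ⟨hy, hne.symm, h3.trans h2.le⟩
    exact absurd (h4.trans h3) (not_le.2 h1)
  refine ⟨key, ?_⟩
  intro t ht
  classical
  unfold Un
  rw [Finset.sum_ite, Finset.sum_const_zero, add_zero, Finset.sum_const, nsmul_eq_mul, mul_one]
  have : (S.filter fun z => ENNReal.ofReal t < dt ε S z ∧ ‖pos z t‖ ≤ ε).card ≤ 1 := by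
    rw [Finset.card_le_one]
    intro z hz y hy
    simp only [Finset.mem_filter] at hz hy
    by_contra hne
    have h1 := key z hz.1 y hy.1 hne t ht hz.2.1 hy.2.1
    have h2 : ‖pos z t - pos y t‖ ≤ ‖pos z t‖ + ‖pos y t‖ := norm_sub_le _ _
    linarith [hz.2.2, hy.2.2]
  exact_mod_cast this

end Run7.h842.Met
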